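import Pool.Agent.H5.RPG.Stmts

/-!
# Row NUM of the board `rpg`: real numbers
-/

set_option autoImplicit false

namespace Pool.RPG

theorem num_thm : NUMStmt := by
  intro δ d h0 h1 h2
  have hd : (56 : ℝ) ≤ d := by
    have h3 : δ ^ 2 ≤ 1 / 4 := by nlinarith
    have h4 : δ ^ 2 * d ≤ 1 / 4 * d := mul_le_mul_of_nonneg_right h3 (Nat.cast_nonneg d)
    linarith
  have hd' : 56 ≤ d := by exact_mod_cast hd
  refine ⟨hd', ?_, by linarith, ?_⟩
  · have h3 : Real.log 4 < (8 * δ / 25) ^ 2 * d := by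
      have h4 : Real.log 4 = 2 * Real.log 2 := by
        rw [show (4 : ℝ) = 2 ^ 2 by norm_num, Real.log_pow]
        norm_num
      have h5 := Real.log_two_lt_d9
      rw [h4]
      have h6 : (8 * δ / 25) ^ 2 * d = 64 / 625 * (δ ^ 2 * d) := by ring
      rw [h6]
      linarith
    have h7 : Real.exp (-((8 * δ / 25) ^ 2 * d)) < Real.exp (-Real.log 4) :=
      Real.exp_lt_exp.2 (by linarith)
    rw [Real.exp_neg (Real.log 4), Real.exp_log (by norm_num)] at h7
    linarith
  · have hcast : (((d - 1 : ℕ) : ℕ) : ℝ) = d - 1 := by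
      rw [Nat.cast_sub (by omega)]
      norm_num
    have h3 : (1 - 17 * δ / 25) ^ (d - 1) ≤ Real.exp (-((17 * δ / 25) * (d - 1))) := by
      have h4 : 1 - 17 * δ / 25 ≤ Real.exp (-(17 * δ / 25)) := Real.one_sub_le_exp_neg _
      have h5 := pow_le_pow_left₀ (by linarith : (0 : ℝ) ≤ 1 - 17 * δ / 25) h4 (d - 1)
      rw [← Real.exp_nat_mul, hcast] at h5
      refine h5.trans (le_of_eq ?_)
      congr 1
      ring
    obtain ⟨y, hy⟩ : ∃ y, y = δ * d := ⟨_, rfl⟩
    have hy28 : 28 ≤ y := by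
      have h4 : 14 ≤ δ * y := by rw [hy]; nlinarith
      nlinarith
    have hdy : (14 : ℝ) * d ≤ y ^ 2 := by
      have : y ^ 2 = (δ ^ 2 * d) * d := by rw [hy]; ring
      rw [this]
      exact mul_le_mul_of_nonneg_right h2 (Nat.cast_nonneg d)
    obtain ⟨z, hz⟩ : ∃ z, z = (17 * δ / 25) * ((d : ℝ) - 1) := ⟨_, rfl⟩
    have hzy : 33 / 50 * y ≤ z := by
      have : z = 17 / 25 * y - 17 / 25 * δ := by rw [hz, hy]; ring
      rw [this]
      linarith
    have hz0 : 0 ≤ z := by linarith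
    have h6 : z ^ 3 / 6 ≤ Real.exp z := by
      have := Real.pow_div_factorial_le_exp z hz0 3
      norm_num [Nat.factorial] at this
      exact this
    have h7 : 6 * (d : ℝ) ≤ Real.exp z := by
      have h8 : (33 / 50 * y) ^ 3 ≤ z ^ 3 := pow_le_pow_left₀ (by linarith) hzy 3
      have h9 : 28 * y ^ 2 ≤ y ^ 3 := by nlinarith [sq_nonneg y]
      have h10 : (33 / 50 * y) ^ 3 = 35937 / 125000 * y ^ 3 := by ring
      nlinarith
    rw [← hz] at h3
    calc 6 * (d : ℝ) * (1 - 17 * δ / 25) ^ (d - 1) ≤ Real.exp z * Real.exp (-z) :=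
          mul_le_mul h7 h3 (pow_nonneg (by linarith) _) (Real.exp_pos z).le
      _ = 1 := by rw [← Real.exp_add, add_neg_cancel, Real.exp_zero]

end Pool.RPG
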